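import Mathlib

/-!
# The wall state in the coordinates `d`

`F` is the square matrix of the merged simplex, `G = F Z`. The facets `0, 1, 2` are the three own
facets, `cls i` says that the facet `i` is in the class `A` (`c i = 1 / (1 - d i)`, `s i ≤ 1`),
otherwise `s i = 1 / (1 - d i)`, `c i ≤ 1`. The body is contained in the points with barycentric
coordinates `p : Fin 4 → ℝ` (`p 0` the merged facet), `∑ c i p i ≤ 1`, `∑ s i p i ≤ 1`. Labels of
lattice points (coordinates): `0` is `C`, `1, 2, 3` the own facets, `4` is `D`.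
-/

set_option autoImplicit false

namespace Pool.Agent.Helper80.TK

open Matrix

/-- the vectors of the tetrahedron -/
def gz : Fin 4 → Fin 3 → ℤ := ![![1, 1, 1], ![1, -1, -1], ![-1, 1, -1], ![-1, -1, 1]]

/-- `n_i . v`, where `v` is a difference of lattice points in coordinates: `tr (Fᵀ (g_i vᵀ))` -/
noncomputable def yv (F : Matrix (Fin 3) (Fin 3) ℝ) (i : Fin 4) (v : Fin 3 → ℤ) : ℝ :=
  ∑ a : Fin 3, ∑ b : Fin 3, F a b * ((gz i a : ℝ) * (v b : ℝ))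

/-- the barycentric points of the cut simplex -/
structure Bary (c s : Fin 3 → ℝ) (p : Fin 4 → ℝ) : Prop where
  nonneg : ∀ j, 0 ≤ p j
  sum : ∑ j, p j = 1
  C : ∑ i : Fin 3, c i * p i.succ ≤ 1
  D : ∑ i : Fin 3, s i * p i.succ ≤ 1

/-- the state -/
structure KS (W : ℝ) (F G : Matrix (Fin 3) (Fin 3) ℝ) (cls : Fin 3 → Bool) (d c s : Fin 3 → ℝ)
    (h : ℝ) (lab : (Fin 3 → ℤ) → Fin 5) : Prop where
  d0 : ∀ i, 0 ≤ d i
  d1 : ∀ i, d i < 1
  c0 : ∀ i, 0 ≤ c i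
  s0 : ∀ i, 0 ≤ s i
  A : ∀ i, cls i = true → c i * (1 - d i) = 1 ∧ s i ≤ 1
  B : ∀ i, cls i = false → s i * (1 - d i) = 1 ∧ c i ≤ 1
  /-- label rows -/
  row : ∀ (i : Fin 3) (z y : Fin 3 → ℤ), lab z = i.succ.castSucc → lab y = 0 ∨ lab y = 4 →
    0 ≤ yv F i.succ (z - y)
  /-- chain with `C` -/
  chC : ∀ (z : Fin 3 → Fin 3 → ℤ) (y : Fin 3 → ℤ), (∀ i, lab (z i) = i.succ.castSucc) → lab y = 0 →
    1 ≤ ∑ i : Fin 3, c i * yv F i.succ (z i - y)
  /-- chain with `D` -/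
  chD : ∀ (z : Fin 3 → Fin 3 → ℤ) (y : Fin 3 → ℤ), (∀ i, lab (z i) = i.succ.castSucc) → lab y = 4 →
    1 ≤ ∑ i : Fin 3, s i * yv F i.succ (z i - y)
  /-- the priority of `C`: the point with the label `D` is inside the facet `C` -/
  CD : ∀ (z : Fin 3 → Fin 3 → ℤ) (y y' : Fin 3 → ℤ), (∀ i, lab (z i) = i.succ.castSucc) →
    lab y = 0 → lab y' = 4 →
    0 ≤ ∑ i : Fin 3, c i * (yv F i.succ (z i - y) - yv F i.succ (z i - y'))
  /-- the width -/
  wd : ∀ u : Fin 3 → ℤ, u ≠ 0 → ∃ p q : Fin 4 → ℝ, Bary c s p ∧ Bary c s q ∧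
    4 * W < ∑ j : Fin 4, (q j - p j) * yv G j u
  h0 : 0 ≤ h
  h1 : h ≤ 1
  /-- the budget -/
  dA : ∀ i, cls i = true → d i ≤ h
  dB : ∑ i : Fin 3, (if cls i = true then 0 else d i) ≤ 17 / 50 * (1 - h)

end Pool.Agent.Helper80.TK
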