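import Mathlib
import Pool.Agent.Helper80.TK.State

/-!
# The vertices of the cut simplex, and the bounds of the coefficients
-/

set_option autoImplicit false

namespace Pool.Agent.Helper80.TK

open Finset

/-- the class of a facet, `2` for the merged facet -/
def cc (cls : Fin 3 → Bool) : Fin 4 → ℕ := ![2, (cls 0).toNat, (cls 1).toNat, (cls 2).toNat]

/-- the numbers `d`, `0` for the merged facet -/
noncomputable def dd (d : Fin 3 → ℝ) : Fin 4 → ℝ := ![0, d 0, d 1, d 2]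

theorem cc_succ (cls : Fin 3 → Bool) (i : Fin 3) : cc cls i.succ = (cls i).toNat := by
  fin_cases i <;> rfl

theorem dd_succ (d : Fin 3 → ℝ) (i : Fin 3) : dd d i.succ = d i := by
  fin_cases i <;> rfl

theorem cc_lt (cls : Fin 3 → Bool) (i : Fin 3) : cc cls i.succ < 2 := by
  rw [cc_succ]
  cases cls i <;> decide

theorem cc_eq_zero {cls : Fin 3 → Bool} {i : Fin 4} (h : cc cls i = cc cls 0) : i = 0 := by
  by_contra h0
  obtain ⟨k, rfl⟩ := Fin.exists_succ_eq.2 h0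
  have := cc_lt cls k
  have e : cc cls 0 = 2 := rfl
  omega

/-- everything about a state that is used -/
structure KR (W : ℝ) (F G : Matrix (Fin 3) (Fin 3) ℝ) (cls : Fin 3 → Bool) (d c s : Fin 3 → ℝ)
    (h : ℝ) (lab : (Fin 3 → ℤ) → Fin 5) : Prop where
  ks : KS W F G cls d c s h lab
  lin : ∀ i, (1 - h) * c i + h * s i = 1
  ord : h * ∑ i : Fin 3, (if cls i = true then 0 else d i) ≤
    (1 - h) * ∑ i : Fin 3, (if cls i = true then d i else 0)
  clsA : ∃ i, cls i = true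
  clsB : ∃ i, cls i = false

section

variable {W : ℝ} {F G : Matrix (Fin 3) (Fin 3) ℝ} {cls : Fin 3 → Bool} {d c s : Fin 3 → ℝ} {h : ℝ}
  {lab : (Fin 3 → ℤ) → Fin 5}

/-- the largest value is at a vertex -/
theorem KS.top (hk : KS W F G cls d c s h lab) {p : Fin 4 → ℝ} (hp : Bary c s p) (Y : Fin 4 → ℝ) :
    ∃ i : Fin 4, (∀ t, cc cls t ≠ cc cls i → Y t ≤ Y i) ∧
      ∀ T, (∀ t, cc cls t ≠ cc cls i → Y t ≤ T) → T ≤ Y i →
        ∑ j, p j * Y j ≤ (1 - dd d i) * Y i + dd d i * T := by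
  by_cases h0 : ∀ t, Y t ≤ Y 0
  · refine ⟨0, fun t _ => h0 t, fun T _ _ => ?_⟩
    have h1 : ∑ j, p j * Y j ≤ ∑ j, p j * Y 0 :=
      Finset.sum_le_sum fun j _ => mul_le_mul_of_nonneg_left (h0 j) (hp.nonneg j)
    rw [← Finset.sum_mul, hp.sum] at h1
    show _ ≤ (1 - 0) * Y 0 + 0 * T
    linarith
  obtain ⟨m, -, hm⟩ := Finset.exists_max_image Finset.univ Y ⟨0, Finset.mem_univ _⟩
  have hm' : ∀ t, Y t ≤ Y m := fun t => hm t (Finset.mem_univ _)
  have hm0 : m ≠ 0 := by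
    rintro rfl
    exact h0 hm'
  obtain ⟨k, rfl⟩ := Fin.exists_succ_eq.2 hm0
  -- the weights of the class
  obtain ⟨a, ha0, ha1, ha2⟩ : ∃ a : Fin 3 → ℝ, (∀ i, 0 ≤ a i) ∧ ∑ i : Fin 3, a i * p i.succ ≤ 1 ∧
      ∀ i, cc cls i.succ = cc cls k.succ → a i * (1 - d i) = 1 := by
    cases hc : cls k with
    | true =>
      refine ⟨c, hk.c0, hp.C, fun i hi => ?_⟩
      rw [cc_succ, cc_succ, hc] at hi
      refine (hk.A i ?_).1
      cases h2 : cls i with
      | true => rfl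
      | false => rw [h2] at hi; exact absurd hi (by decide)
    | false =>
      refine ⟨s, hk.s0, hp.D, fun i hi => ?_⟩
      rw [cc_succ, cc_succ, hc] at hi
      refine (hk.B i ?_).1
      cases h2 : cls i with
      | false => rfl
      | true => rw [h2] at hi; exact absurd hi (by decide)
  obtain ⟨t0, ht0, hT⟩ := Finset.exists_max_image (Finset.univ.filter fun t => cc cls t ≠ cc cls k.succ) Y
    ⟨0, by
      rw [Finset.mem_filter]
      refine ⟨Finset.mem_univ _, ?_⟩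
      have h1 := cc_lt cls k
      have h2 : cc cls 0 = 2 := rfl
      omega⟩
  have hT' : ∀ t, cc cls t ≠ cc cls k.succ → Y t ≤ Y t0 := fun t ht =>
    hT t (Finset.mem_filter.2 ⟨Finset.mem_univ _, ht⟩)
  obtain ⟨i0, hi0, hmu⟩ := Finset.exists_max_image (Finset.univ.filter fun t => cc cls t = cc cls k.succ)
    (fun j => (1 - dd d j) * (Y j - Y t0)) ⟨k.succ, by simp⟩
  rw [Finset.mem_filter] at hi0
  have hmu' : ∀ t, cc cls t = cc cls k.succ →
      (1 - dd d t) * (Y t - Y t0) ≤ (1 - dd d i0) * (Y i0 - Y t0) := fun t ht =>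
    hmu t (Finset.mem_filter.2 ⟨Finset.mem_univ _, ht⟩)
  have hi00 : i0 ≠ 0 := by
    rintro rfl
    have h1 := cc_lt cls k
    have h2 : cc cls 0 = 2 := rfl
    have h3 := hi0.2
    omega
  obtain ⟨i, rfl⟩ := Fin.exists_succ_eq.2 hi00
  have hd1 : ∀ i, 0 < 1 - dd d (Fin.succ i) := fun i => by
    rw [dd_succ]; linarith [hk.d1 i]
  have hmu0 : 0 ≤ (1 - dd d i.succ) * (Y i.succ - Y t0) := by
    refine le_trans ?_ (hmu' k.succ rfl)
    exact mul_nonneg (hd1 k).le (by linarith [hm' t0])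
  have hYi : Y t0 ≤ Y i.succ := by
    by_contra h1
    push Not at h1
    have := mul_neg_of_pos_of_neg (hd1 i) (by linarith : Y i.succ - Y t0 < 0)
    linarith
  refine ⟨i.succ, fun t ht => (hT' t (by rw [← hi0.2]; exact ht)).trans hYi, fun T hT1 hT2 => ?_⟩
  have e1 : ∑ j, p j * Y j - Y t0 = ∑ j, p j * (Y j - Y t0) := by
    rw [Finset.sum_congr rfl fun j _ => mul_sub (p j) (Y j) (Y t0), Finset.sum_sub_distrib,
      ← Finset.sum_mul, hp.sum, one_mul]
  have e2 : ∑ j, p j * (Y j - Y t0) ≤ (1 - dd d i.succ) * (Y i.succ - Y t0) := by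
    rw [Fin.sum_univ_succ]
    have h1 : p 0 * (Y 0 - Y t0) ≤ 0 := by
      refine mul_nonpos_of_nonneg_of_nonpos (hp.nonneg 0) ?_
      have := hT' 0 (by
        have h1 := cc_lt cls k
        have h2 : cc cls 0 = 2 := rfl
        omega)
      linarith
    have h2 : ∀ j : Fin 3, p j.succ * (Y j.succ - Y t0) ≤
        ((1 - dd d i.succ) * (Y i.succ - Y t0)) * (a j * p j.succ) := by
      intro j
      by_cases hj : cc cls j.succ = cc cls k.succ
      · have h3 := ha2 j hj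
        have h4 := hmu' _ hj
        rw [dd_succ] at h4
        have h5 : p j.succ * (Y j.succ - Y t0) = ((1 - d j) * (Y j.succ - Y t0)) * (a j * p j.succ) := by
          linear_combination (-(p j.succ * (Y j.succ - Y t0))) * h3
        rw [h5]
        exact mul_le_mul_of_nonneg_right h4 (mul_nonneg (ha0 j) (hp.nonneg _))
      · have h3 := hT' _ hj
        have h4 : p j.succ * (Y j.succ - Y t0) ≤ 0 :=
          mul_nonpos_of_nonneg_of_nonpos (hp.nonneg _) (by linarith)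
        exact h4.trans (mul_nonneg hmu0 (mul_nonneg (ha0 j) (hp.nonneg _)))
    have h3 : ∑ j : Fin 3, p j.succ * (Y j.succ - Y t0) ≤
        ∑ j : Fin 3, ((1 - dd d i.succ) * (Y i.succ - Y t0)) * (a j * p j.succ) :=
      Finset.sum_le_sum fun j _ => h2 j
    rw [← Finset.mul_sum] at h3
    have h4 := mul_le_mul_of_nonneg_left ha1 hmu0
    linarith
  have h5 : Y t0 ≤ T := hT1 t0 (by rw [hi0.2]; exact (Finset.mem_filter.1 ht0).2)
  have h6 : 0 ≤ dd d i.succ := by rw [dd_succ]; exact hk.d0 i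
  have h7 := mul_le_mul_of_nonneg_left h5 h6
  nlinarith [h7, e1, e2]

/-- the admissible second vertices: `i` the first vertex of the top, `a` its second vertex, `j`, `b` the
same for the bottom -/
def Adm (cls : Fin 3 → Bool) (i j a b : Fin 4) : Prop :=
  i ≠ j ∧ (i = 0 → a = 0) ∧ (i ≠ 0 → cc cls a ≠ cc cls i ∧ a ≠ j) ∧ (j = 0 → b = 0) ∧
    (j ≠ 0 → cc cls b ≠ cc cls j ∧ b ≠ i) ∧ (cc cls i = cc cls j → a ≠ b)

instance (cls : Fin 3 → Bool) (i j a b : Fin 4) : Decidable (Adm cls i j a b) := by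
  unfold Adm; infer_instance

/-- the difference of the two vertices is large -/
def VP (W : ℝ) (cls : Fin 3 → Bool) (d : Fin 3 → ℝ) (Y : Fin 4 → ℝ) (i j a b : Fin 4) : Prop :=
  Adm cls i j a b ∧ Y a ≤ Y i ∧ Y j ≤ Y b ∧
    4 * W < ((1 - dd d i) * Y i + dd d i * Y a) - ((1 - dd d j) * Y j + dd d j * Y b)

/-- a second vertex which is not `j` -/
theorem exists_second {cls : Fin 3 → Bool} (hA : ∃ i, cls i = true) (hB : ∃ i, cls i = false)
    (Y : Fin 4 → ℝ) (i j : Fin 4) (hij : i ≠ j) (hi : i ≠ 0)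
    (hj : ∀ t, cc cls t ≠ cc cls j → Y j ≤ Y t) :
    ∃ a, cc cls a ≠ cc cls i ∧ a ≠ j ∧ ∀ t, cc cls t ≠ cc cls i → Y t ≤ Y a := by
  have hi0 : cc cls 0 ≠ cc cls i := fun h => hi (cc_eq_zero h.symm)
  obtain ⟨t0, ht0, hT⟩ := Finset.exists_max_image (Finset.univ.filter fun t => cc cls t ≠ cc cls i) Y
    ⟨0, by simp [hi0]⟩
  rw [Finset.mem_filter] at ht0
  have hT' : ∀ t, cc cls t ≠ cc cls i → Y t ≤ Y t0 := fun t ht =>
    hT t (Finset.mem_filter.2 ⟨Finset.mem_univ _, ht⟩)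
  by_cases h1 : t0 = j
  · subst h1
    by_cases h2 : t0 = 0
    · subst h2
      -- another one of the opposite class
      obtain ⟨m, hm⟩ : ∃ m : Fin 3, cc cls m.succ ≠ cc cls i := by
        obtain ⟨k, rfl⟩ := Fin.exists_succ_eq.2 hi
        obtain ⟨x, hx⟩ := hA
        obtain ⟨y, hy⟩ := hB
        cases hk : cls k with
        | true => exact ⟨y, by rw [cc_succ, cc_succ, hk, hy]; decide⟩
        | false => exact ⟨x, by rw [cc_succ, cc_succ, hk, hx]; decide⟩
      refine ⟨m.succ, hm, Fin.succ_ne_zero _, fun t ht => (hT' t ht).trans (hj _ ?_)⟩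
      have h1 := cc_lt cls m
      have h2 : cc cls 0 = 2 := rfl
      omega
    · refine ⟨0, hi0, fun h => h2 h.symm, fun t ht => (hT' t ht).trans (hj 0 ?_)⟩
      exact fun h => h2 (cc_eq_zero h.symm)
  · exact ⟨t0, ht0.2, h1, hT'⟩

/-- **the vertices of the width** -/
theorem KR.wt (hk : KR W F G cls d c s h lab) (hW : 0 ≤ W) (u : Fin 3 → ℤ) (hu : u ≠ 0) :
    ∃ i j a b : Fin 4, VP W cls d (fun j => yv G j u) i j a b := by
  obtain ⟨p, q, hp, hq, hw⟩ := hk.ks.wd u hu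
  obtain ⟨Y, hY⟩ : ∃ Y : Fin 4 → ℝ, Y = fun j => yv G j u := ⟨_, rfl⟩
  rw [← hY]
  have hw' : 4 * W < ∑ j, q j * Y j - ∑ j, p j * Y j := by
    rw [← Finset.sum_sub_distrib]
    refine lt_of_lt_of_eq hw (Finset.sum_congr rfl fun j _ => ?_)
    rw [hY]; ring
  obtain ⟨i, hi1, hi2⟩ := hk.ks.top hq Y
  obtain ⟨j, hj1', hj2'⟩ := hk.ks.top hp (fun t => -Y t)
  have hj1 : ∀ t, cc cls t ≠ cc cls j → Y j ≤ Y t := fun t ht => by
    have h0 : -Y t ≤ -Y j := hj1' t ht
    linarith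
  have hj2 : ∀ T, (∀ t, cc cls t ≠ cc cls j → T ≤ Y t) → Y j ≤ T →
      (1 - dd d j) * Y j + dd d j * T ≤ ∑ j, p j * Y j := by
    intro T h1 h2
    have := hj2' (-T) (fun t ht => by have := h1 t ht; linarith) (by linarith)
    simp only [mul_neg, Finset.sum_neg_distrib] at this
    linarith
  have dpos : ∀ i : Fin 4, 0 ≤ dd d i := by
    intro i
    rcases Fin.eq_zero_or_eq_succ i with rfl | ⟨k, rfl⟩
    · exact le_of_eq rfl
    · rw [dd_succ]; exact hk.ks.d0 k
  -- the same vertex is impossible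
  have hij : i ≠ j := by
    rintro rfl
    have h1 := hi2 (Y i) hi1 le_rfl
    have h2 := hj2 (Y i) hj1 le_rfl
    linarith
  have fin : ∀ a b, Adm cls i j a b → (∀ t, cc cls t ≠ cc cls i → Y t ≤ Y a) → Y a ≤ Y i →
      (∀ t, cc cls t ≠ cc cls j → Y b ≤ Y t) → Y j ≤ Y b →
      ∃ i j a b : Fin 4, VP W cls d Y i j a b := by
    intro a b hab h1 h2 h3 h4
    refine ⟨i, j, a, b, hab, h2, h4, ?_⟩
    have h5 := hi2 (Y a) h1 h2
    have h6 := hj2 (Y b) h3 h4
    linarith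
  have fin0 : ∀ a b, Adm cls i j a b → (i ≠ 0 → ∀ t, cc cls t ≠ cc cls i → Y t ≤ Y a) → Y a ≤ Y i →
      (j ≠ 0 → ∀ t, cc cls t ≠ cc cls j → Y b ≤ Y t) → Y j ≤ Y b →
      ∃ i j a b : Fin 4, VP W cls d Y i j a b := by
    intro a b hab h1 h2 h3 h4
    refine fin a b hab ?_ h2 ?_ h4
    · by_cases h0 : i = 0
      · intro t ht
        rw [hab.2.1 h0, ← h0]
        exact hi1 t ht
      · exact h1 h0
    · by_cases h0 : j = 0
      · intro t ht
        rw [hab.2.2.2.1 h0, ← h0]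
        exact hj1 t ht
      · exact h3 h0
  by_cases h0 : i = 0
  · -- the top is the vertex 0
    have hj0 : j ≠ 0 := fun h => hij (h0.trans h.symm)
    obtain ⟨b, b1, b2, b3⟩ := exists_second hk.clsA hk.clsB (fun t => -Y t) j i (Ne.symm hij) hj0
      (fun t ht => neg_le_neg (hi1 t ht))
    have b3' : ∀ t, cc cls t ≠ cc cls j → Y b ≤ Y t := fun t ht => by
      have h0 : -Y t ≤ -Y b := b3 t ht
      linarith
    refine fin0 0 b ⟨hij, fun _ => rfl, fun h => absurd h0 h, fun h => absurd h hj0, fun _ => ⟨b1, b2⟩, ?_⟩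
      (fun h => absurd h0 h) (by rw [h0]) (fun _ => b3') (hj1 b b1)
    intro h
    rw [h0] at h
    exact absurd (cc_eq_zero h.symm) hj0
  obtain ⟨a, a1, a2, a3⟩ := exists_second hk.clsA hk.clsB Y i j hij h0 hj1
  by_cases h1 : j = 0
  · refine fin0 a 0 ⟨hij, fun h => absurd h h0, fun _ => ⟨a1, a2⟩, fun _ => rfl, fun h => absurd h1 h, ?_⟩
      (fun _ => a3) (hi1 a a1) (fun h => absurd h1 h) (by rw [h1])
    intro h
    rw [h1] at h
    exact absurd (cc_eq_zero h) h0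
  obtain ⟨b, b1, b2, b3⟩ := exists_second hk.clsA hk.clsB (fun t => -Y t) j i (Ne.symm hij) h1
    (fun t ht => neg_le_neg (hi1 t ht))
  have b3' : ∀ t, cc cls t ≠ cc cls j → Y b ≤ Y t := fun t ht => by
    have h0 : -Y t ≤ -Y b := b3 t ht
    linarith
  by_cases hab : cc cls i = cc cls j ∧ a = b
  · -- all the values of the opposite class are equal
    obtain ⟨hc, hab⟩ := hab
    subst hab
    have hall : ∀ t, cc cls t ≠ cc cls j → Y t = Y a := fun t ht =>
      le_antisymm (a3 t (by rw [hc]; exact ht)) (b3' t ht)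
    obtain ⟨b', hb1, hb2⟩ : ∃ b', cc cls b' ≠ cc cls j ∧ b' ≠ a := by
      by_cases ha0 : a = 0
      · obtain ⟨m, hm⟩ : ∃ m : Fin 3, cc cls m.succ ≠ cc cls j := by
          obtain ⟨k, rfl⟩ := Fin.exists_succ_eq.2 h1
          obtain ⟨x, hx⟩ := hk.clsA
          obtain ⟨y, hy⟩ := hk.clsB
          cases hk : cls k with
          | true => exact ⟨y, by rw [cc_succ, cc_succ, hk, hy]; decide⟩
          | false => exact ⟨x, by rw [cc_succ, cc_succ, hk, hx]; decide⟩
        exact ⟨m.succ, hm, by rw [ha0]; exact Fin.succ_ne_zero _⟩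
      · exact ⟨0, fun h => h1 (cc_eq_zero h.symm), fun h => ha0 h.symm⟩
    have hb3 : b' ≠ i := fun h => hb1 (by rw [h, hc])
    refine fin0 a b' ⟨hij, fun h => absurd h h0, fun _ => ⟨a1, a2⟩, fun h => absurd h h1,
      fun _ => ⟨hb1, hb3⟩, fun _ => Ne.symm hb2⟩ (fun _ => a3) (hi1 a a1) (fun _ t ht => ?_) (hj1 b' hb1)
    rw [hall _ hb1]
    exact b3' t ht
  · refine fin0 a b ⟨hij, fun h => absurd h h0, fun _ => ⟨a1, a2⟩, fun h => absurd h h1,
      fun _ => ⟨b1, b2⟩, fun h h' => hab ⟨h, h'⟩⟩ (fun _ => a3) (hi1 a a1) (fun _ => b3') (hj1 b b1)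

end

end Pool.Agent.Helper80.TK
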