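import Mathlib
import Pool.Agent.Helper80.TP.Leaf

/-!
# Facts without parameters as natural numbers

A fact is one natural number, 15 blocks in base `YY = 2^2560`: blocks `0 .. 6` are the rows (in two
strides) and the right side of the matrix `C`, blocks `7 .. 13` the same for `M`, block `14` is `1`.
-/

set_option autoImplicit false

namespace Pool.Agent.Helper80.TK

open Finset
open Pool.Agent.Helper80.TP (BB R9 YY M9 RB IM rowX rowY Seven RD pr Item force force_eq bl bl_eq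
  digits_nat YY_pos YY_mul R9_pos R9_le_RB shift_eq YY_pow mod_cong Hit Small FL flE FOK)

/-- `acc` is a combination of facts with total weight `W` -/
structure SK (E : RD) (acc W : ℕ) (C : IM) (k : ℤ) (M : IM) (u : ℤ) : Prop where
  rep : ∃ e : ℕ → ℕ, acc = ∑ i ∈ range 15, e i * YY ^ i ∧ (∀ i < 14, e i ≤ W * RB) ∧ e 14 = W ∧
    Seven e 0 C k ∧ Seven e 7 M u
  bC : ∀ i j, |C i j| ≤ W * 2 ^ 30
  bM : ∀ i j, |M i j| ≤ W * 2 ^ 30
  bk : |k| ≤ W * 2 ^ 38
  bu : |u| ≤ W * 2 ^ 36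
  hC : (k : ℝ) ≤ pr E.F C
  hM : E.om * u ≤ pr E.G M

/-- a fact -/
def IsF (E : RD) (N : ℕ) : Prop := ∃ C k M u, SK E N 1 C k M u

theorem SK.comb {E : RD} {acc W N V : ℕ} {C D : IM} {k l : ℤ} {M L : IM} {u v : ℤ}
    (w : ℕ) (h : SK E acc W C k M u) (h' : SK E N V D l L v) :
    SK E (acc + w * N) (W + w * V) (fun i j => C i j + w * D i j) (k + w * l)
      (fun i j => M i j + w * L i j) (u + w * v) := by
  have hw : (0 : ℝ) ≤ w := Nat.cast_nonneg _
  have babs : ∀ (a b : ℤ) (t : ℕ), |a| ≤ W * 2 ^ t → |b| ≤ V * 2 ^ t →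
      |a + w * b| ≤ ((W + w * V : ℕ) : ℤ) * 2 ^ t := by
    intro a b t ha hb
    have h0 : (0 : ℤ) ≤ w := Nat.cast_nonneg _
    calc |a + w * b| ≤ |a| + |w * b| := abs_add_le _ _
      _ = |a| + w * |b| := by rw [abs_mul, abs_of_nonneg h0]
      _ ≤ W * 2 ^ t + w * (V * 2 ^ t) := add_le_add ha (mul_le_mul_of_nonneg_left hb h0)
      _ = ((W + w * V : ℕ) : ℤ) * 2 ^ t := by push_cast; ring
  have epr : ∀ (G : Matrix (Fin 3) (Fin 3) ℝ) (A B : IM),
      pr G (fun i j => A i j + w * B i j) = pr G A + w * pr G B := by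
    intro G A B
    simp only [pr, Fin.sum_univ_three]
    push_cast
    ring
  constructor
  · obtain ⟨e, h1, h2, h3, h5, h6⟩ := h.rep
    obtain ⟨f, g1, g2, g3, g5, g6⟩ := h'.rep
    refine ⟨fun i => e i + w * f i, ?_, ?_, ?_, h5.comb w g5, h6.comb w g6⟩
    · rw [h1, g1, Finset.mul_sum, ← Finset.sum_add_distrib]
      exact Finset.sum_congr rfl fun i _ => by ring
    · intro i hi
      have a1 := h2 i hi
      have a2 := Nat.mul_le_mul_left w (g2 i hi)
      calc e i + w * f i ≤ W * RB + w * (V * RB) := add_le_add a1 a2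
        _ = (W + w * V) * RB := by ring
    · show e 14 + w * f 14 = W + w * V
      rw [h3, g3]
  · intro i j
    exact babs _ _ _ (h.bC i j) (h'.bC i j)
  · intro i j
    exact babs _ _ _ (h.bM i j) (h'.bM i j)
  · exact babs _ _ _ h.bk h'.bk
  · exact babs _ _ _ h.bu h'.bu
  · have h1 := h.hC
    have h2 := mul_le_mul_of_nonneg_left h'.hC hw
    rw [epr]
    push_cast
    linarith
  · have h1 := h.hM
    have h2 := mul_le_mul_of_nonneg_left h'.hM hw
    rw [epr]
    push_cast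
    linarith

theorem sk_zero (E : RD) : SK E 0 0 (fun _ _ => 0) 0 (fun _ _ => 0) 0 := by
  have h7 : ∀ o, Seven (fun _ => 0) o (fun _ _ => 0) 0 := by
    intro o
    constructor <;> simp [rowX, rowY]
  refine ⟨⟨fun _ => 0, by simp, by simp, rfl, h7 0, h7 7⟩, by simp, by simp, by simp, by simp, ?_, ?_⟩
  · simp [pr]
  · simp [pr]

/-- the total weight is small -/
def okK (acc : Nat) : Bool := Nat.ble (Nat.shiftRight acc 35840) 1048575

theorem okK_eq (acc : ℕ) (h : okK acc = true) : acc / YY ^ 14 < 2 ^ 20 := by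
  have h1 : okK acc = Nat.ble (Nat.shiftRight acc (2560 * 14)) 1048575 := rfl
  rw [h1, shift_eq] at h
  have h2 : acc / YY ^ 14 ≤ 1048575 := Nat.le_of_ble_eq_true h
  omega

theorem small_lt {W : ℕ} (hW : W < 2 ^ 20) : W * RB < YY := by
  rw [YY_mul]
  have h1 : W * RB ≤ 2 ^ 20 * RB := Nat.mul_le_mul_right _ hW.le
  have h2 : 2 ^ 20 * RB < R9 * 2 ^ 256 := by
    have h3 : 2 ^ 20 * RB = R9 * (2 ^ 20 * 2 ^ 60) := by
      unfold RB; ring
    rw [h3]
    exact Nat.mul_lt_mul_of_pos_left (by norm_num) R9_pos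
  omega

section

variable {E : RD} {acc W : ℕ} {C : IM} {k : ℤ} {M : IM} {u : ℤ}

theorem SK.W_lt (h : SK E acc W C k M u) (hW : acc / YY ^ 14 < 2 ^ 20) : W < 2 ^ 20 := by
  obtain ⟨e, h1, -, h4, -⟩ := h.rep
  refine lt_of_le_of_lt ?_ hW
  rw [Nat.le_div_iff_mul_le (pow_pos YY_pos 14), h1, ← h4]
  exact Finset.single_le_sum (f := fun i => e i * YY ^ i) (fun i _ => Nat.zero_le _)
    (Finset.mem_range.mpr (by norm_num : 14 < 15))

/-- the blocks are the data -/
theorem SK.blocks (h : SK E acc W C k M u) (hW : okK acc = true) :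
    Seven (fun i => bl acc (2560 * i)) 0 C k ∧ Seven (fun i => bl acc (2560 * (i + 7))) 0 M u := by
  have hW' := h.W_lt (okK_eq acc hW)
  obtain ⟨e, h1, h2, h4, h5, h6⟩ := h.rep
  have hsm := small_lt hW'
  have hlt : ∀ j < 15, e j < YY := by
    intro j hj
    rcases Nat.lt_or_ge j 14 with h7 | h7
    · exact lt_of_le_of_lt (h2 j h7) hsm
    · have h9 : j = 14 := by omega
      rw [h9, h4]
      have h10 : (2 : ℕ) ^ 20 < YY := by norm_num [YY]
      omega
  have key : ∀ j < 15, bl acc (2560 * j) = e j % R9 := by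
    intro j hj
    rw [bl_eq]
    have e1 := digits_nat YY 15 e hlt acc 0 (by rw [h1]; simp) j hj
    rw [← Nat.mod_mod_of_dvd _ (⟨2 ^ 256, YY_mul⟩ : R9 ∣ YY), e1]
  have s1 : ∀ (o : ℕ) (D : IM) (l : ℤ), o + 7 ≤ 15 → Seven e o D l →
      Seven (fun i => bl acc (2560 * (i + o))) 0 D l := by
    intro o D l ho hs
    refine ⟨fun i => ?_, fun i => ?_, ?_⟩
    · show ((bl acc (2560 * (0 + (i : ℕ) + o)) : ℕ) : ℤ) ≡ _ [ZMOD R9]
      rw [key _ (by omega), show 0 + (i : ℕ) + o = o + i by omega]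
      exact mod_cong _ _ (hs.x i)
    · show ((bl acc (2560 * (0 + 3 + (i : ℕ) + o)) : ℕ) : ℤ) ≡ _ [ZMOD R9]
      rw [key _ (by omega), show 0 + 3 + (i : ℕ) + o = o + 3 + i by omega]
      exact mod_cong _ _ (hs.y i)
    · show ((bl acc (2560 * (0 + 6 + o)) : ℕ) : ℤ) ≡ _ [ZMOD R9]
      rw [key _ (by omega), show 0 + 6 + o = o + 6 by omega]
      exact mod_cong _ _ hs.k
  exact ⟨s1 0 C k (by norm_num) h5, s1 7 M u (by norm_num) h6⟩

/-- the sizes -/
theorem SK.small (h : SK E acc W C k M u) (hW : okK acc = true) : Small C k M u := by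
  have hW' : (W : ℤ) ≤ 2 ^ 20 := by exact_mod_cast (h.W_lt (okK_eq acc hW)).le
  refine ⟨fun i j => ?_, ?_, fun i j => ?_, ?_⟩
  · exact (h.bC i j).trans ((mul_le_mul_of_nonneg_right hW' (by positivity)).trans (by norm_num))
  · exact h.bk.trans ((mul_le_mul_of_nonneg_right hW' (by positivity)).trans (by norm_num))
  · exact (h.bM i j).trans ((mul_le_mul_of_nonneg_right hW' (by positivity)).trans (by norm_num))
  · exact h.bu.trans ((mul_le_mul_of_nonneg_right hW' (by positivity)).trans (by norm_num))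

/-- the test contradicts the facts -/
theorem SK.not_hit (h : SK E acc W C k M u) {σ : ℝ} (hσ : 0 < σ) (hh : Hit E σ C k M u) : False := by
  have h1 := h.hC
  have h2 := mul_le_mul_of_nonneg_left h.hM hσ.le
  unfold Hit at hh
  linarith

end

end Pool.Agent.Helper80.TK
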