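import Mathlib
import Pool.Agent.Helper80.TP.Build
import Pool.Agent.Helper80.TK.Fact

/-!
# Building facts

`pm v a b` is the packed matrix with the rows `(a i - b i) x`, where `v` is the packed vector `x`.
-/

set_option autoImplicit false

namespace Pool.Agent.Helper80.TK

open Finset
open Pool.Agent.Helper80.TP (BB R9 YY M9 RB IM rowX rowY Seven RD pr YY_pos YY_mul R9_pos R9_le_RB
  YY_pow Vc VR vc vI vr_vc p2 p2_YY shl seven_shift)

/-- rows `(a i - b i) x` -/
def pm (v : Vc) (a₀ a₁ a₂ b₀ b₁ b₂ : Nat) : Nat :=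
  Nat.add (Nat.mul v.U (Nat.add a₀ (Nat.add (Nat.shiftLeft a₁ 2560) (Nat.shiftLeft a₂ 5120))))
    (Nat.mul v.N (Nat.add b₀ (Nat.add (Nat.shiftLeft b₁ 2560) (Nat.shiftLeft b₂ 5120))))

/-- the second part -/
def toM (n : Nat) : Nat := Nat.shiftLeft n 17920

/-- right sides -/
def kC (k : Nat) : Nat := Nat.shiftLeft k 15360

def kM (k : Nat) : Nat := Nat.shiftLeft k 33280

/-- the weight -/
def one (n : Nat) : Nat := Nat.add n (p2 35840)

/-- a sum of pieces -/
def Pk (N : ℕ) (C : IM) (k : ℤ) (M : IM) (u : ℤ) (p : ℕ) : Prop :=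
  ∃ e : ℕ → ℕ, N = ∑ i ∈ range 14, e i * YY ^ i ∧ (∀ i < 14, e i ≤ p * R9) ∧ Seven e 0 C k ∧
    Seven e 7 M u

theorem seven_add {e f : ℕ → ℕ} {o : ℕ} {C D : IM} {k l : ℤ} (h : Seven e o C k)
    (h' : Seven f o D l) : Seven (fun i => e i + f i) o (fun i j => C i j + D i j) (k + l) := by
  have := h.comb 1 h'
  simpa using this

theorem Pk.add {N N' : ℕ} {C C' M M' : IM} {k k' u u' : ℤ} {p p' : ℕ} (h : Pk N C k M u p)
    (h' : Pk N' C' k' M' u' p') :
    Pk (N + N') (fun i j => C i j + C' i j) (k + k') (fun i j => M i j + M' i j) (u + u') (p + p') := by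
  obtain ⟨e, h1, h2, h3, h4⟩ := h
  obtain ⟨f, g1, g2, g3, g4⟩ := h'
  refine ⟨fun i => e i + f i, ?_, ?_, seven_add h3 g3, seven_add h4 g4⟩
  · rw [h1, g1, ← Finset.sum_add_distrib]
    exact Finset.sum_congr rfl fun j _ => by ring
  · intro j hj
    have a1 := h2 j hj
    have a2 := g2 j hj
    calc e j + f j ≤ p * R9 + p' * R9 := add_le_add a1 a2
      _ = (p + p') * R9 := by ring

theorem seven_zero (e : ℕ → ℕ) (o : ℕ) (h : ∀ j < 7, e (o + j) = 0) : Seven e o (fun _ _ => 0) 0 := by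
  constructor
  · intro i
    rw [h i (by omega)]
    simp [rowX]
  · intro i
    rw [show o + 3 + (i : ℕ) = o + (3 + i) by omega, h _ (by omega)]
    simp [rowY]
  · rw [h 6 (by norm_num)]
    exact Int.ModEq.refl _

/-- the first part -/
theorem pk_part0 (n : ℕ) (e : ℕ → ℕ) (C : IM) (k : ℤ) (p : ℕ)
    (hn : n = ∑ j ∈ range 7, e j * YY ^ j) (he : ∀ j < 7, e j ≤ p * R9) (hS : Seven e 0 C k) :
    Pk n C k (fun _ _ => 0) 0 p := by
  refine ⟨fun i => if i < 7 then e i else 0, ?_, ?_, ?_, ?_⟩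
  · rw [hn, show (14 : ℕ) = 7 + 7 from rfl, Finset.sum_range_add]
    have h2 : ∑ x ∈ range 7, (if 7 + x < 7 then e (7 + x) else 0) * YY ^ (7 + x) = 0 := by
      refine Finset.sum_eq_zero fun x _ => ?_
      rw [if_neg (by omega), zero_mul]
    rw [h2, add_zero]
    refine Finset.sum_congr rfl fun x hx => ?_
    show e x * YY ^ x = (if x < 7 then e x else 0) * YY ^ x
    rw [if_pos (Finset.mem_range.mp hx)]
  · intro i hi
    by_cases h7 : i < 7
    · simp only [h7, if_true]; exact he i h7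
    · simp [h7]
  · refine seven_shift hS fun j hj => ?_
    rw [Nat.zero_add]
    simp [hj]
  · refine seven_zero _ _ fun j _ => ?_
    rw [if_neg (by omega)]

/-- the second part -/
theorem pk_part1 (n : ℕ) (e : ℕ → ℕ) (C : IM) (k : ℤ) (p : ℕ)
    (hn : n = ∑ j ∈ range 7, e j * YY ^ j) (he : ∀ j < 7, e j ≤ p * R9) (hS : Seven e 0 C k) :
    Pk (YY ^ 7 * n) (fun _ _ => 0) 0 C k p := by
  refine ⟨fun i => if i < 7 then 0 else e (i - 7), ?_, ?_, ?_, ?_⟩
  · rw [hn, show (14 : ℕ) = 7 + 7 from rfl, Finset.sum_range_add]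
    have h2 : ∑ x ∈ range 7, (if x < 7 then 0 else e (x - 7)) * YY ^ x = 0 := by
      refine Finset.sum_eq_zero fun x hx => ?_
      rw [if_pos (Finset.mem_range.mp hx), zero_mul]
    rw [h2, zero_add, Finset.mul_sum]
    refine Finset.sum_congr rfl fun x hx => ?_
    show YY ^ 7 * (e x * YY ^ x) = (if 7 + x < 7 then 0 else e (7 + x - 7)) * YY ^ (7 + x)
    rw [if_neg (by omega), Nat.add_sub_cancel_left, pow_add]
    ring
  · intro i hi
    by_cases h7 : i < 7
    · simp [h7]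
    · simp only [h7, if_false]; exact he _ (by omega)
  · refine seven_zero _ _ fun j hj => ?_
    rw [if_pos (by omega)]
  · refine seven_shift hS fun j hj => ?_
    rw [if_neg (by omega), Nat.add_sub_cancel_left]

/-- the matrix with the rows `(a i - b i) x` -/
def mI (a b : Fin 3 → ℕ) (x : Fin 3 → ℤ) : IM := fun i k => ((a i : ℤ) - b i) * x k

theorem pm_rows {v : Vc} {x : Fin 3 → ℤ} {p : ℕ} (hv : VR v x p) (a b : Fin 3 → ℕ) (q : ℕ)
    (hq : ∀ i, a i + b i ≤ q) : ∃ e : ℕ → ℕ,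
    pm v (a 0) (a 1) (a 2) (b 0) (b 1) (b 2) = ∑ j ∈ range 7, e j * YY ^ j ∧
      (∀ j < 7, e j ≤ (q * p) * R9) ∧ Seven e 0 (mI a b x) 0 := by
  obtain ⟨A, B, C, D, h1, h2, h3, h4, h5, h6, h7, h8, h9, h10⟩ := hv.ex
  obtain ⟨e, he⟩ : ∃ e : ℕ → ℕ, e = fun j => match j with
    | 0 => a 0 * A + b 0 * C | 1 => a 1 * A + b 1 * C | 2 => a 2 * A + b 2 * C
    | 3 => a 0 * B + b 0 * D | 4 => a 1 * B + b 1 * D | 5 => a 2 * B + b 2 * D | _ => 0 := ⟨_, rfl⟩
  have bd : ∀ (i : Fin 3) (X Y : ℕ), X ≤ p * R9 → Y ≤ p * R9 → a i * X + b i * Y ≤ (q * p) * R9 := by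
    intro i X Y hX hY
    calc a i * X + b i * Y ≤ a i * (p * R9) + b i * (p * R9) :=
          add_le_add (Nat.mul_le_mul_left _ hX) (Nat.mul_le_mul_left _ hY)
      _ = (a i + b i) * (p * R9) := by ring
      _ ≤ q * (p * R9) := Nat.mul_le_mul_right _ (hq i)
      _ = _ := by ring
  refine ⟨e, ?_, ?_, ?_⟩
  · have e1 : pm v (a 0) (a 1) (a 2) (b 0) (b 1) (b 2) =
        v.U * (a 0 + (Nat.shiftLeft (a 1) 2560 + Nat.shiftLeft (a 2) 5120)) +
        v.N * (b 0 + (Nat.shiftLeft (b 1) 2560 + Nat.shiftLeft (b 2) 5120)) := rfl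
    have e2 : (2 : ℕ) ^ 2560 = YY ^ 1 := by rw [YY_pow]
    have e3 : (2 : ℕ) ^ 5120 = YY ^ 2 := by rw [YY_pow]
    rw [e1, shl, shl, shl, shl, h1, h2, e2, e3]
    simp only [Finset.sum_range_succ, Finset.sum_range_zero, he]
    ring
  · intro j hj
    rw [he]
    interval_cases j
    · exact bd 0 A C h3 h5
    · exact bd 1 A C h3 h5
    · exact bd 2 A C h3 h5
    · exact bd 0 B D h4 h6
    · exact bd 1 B D h4 h6
    · exact bd 2 B D h4 h6
    · exact Nat.zero_le _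
  · have hx : ∀ i : Fin 3, ((a i * A + b i * C : ℕ) : ℤ) ≡ rowX (mI a b x) i [ZMOD R9] := by
      intro i
      have e1 : rowX (mI a b x) i = a i * (∑ k : Fin 3, x k * (BB : ℤ) ^ (k : ℕ)) +
          b i * (-∑ k : Fin 3, x k * (BB : ℤ) ^ (k : ℕ)) := by
        simp only [rowX, mI, Fin.sum_univ_three]; ring
      rw [e1]
      push_cast
      exact Int.ModEq.add (Int.ModEq.mul_left _ h7) (Int.ModEq.mul_left _ h9)
    have hy : ∀ i : Fin 3, ((a i * B + b i * D : ℕ) : ℤ) ≡ rowY (mI a b x) i [ZMOD R9] := by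
      intro i
      have e1 : rowY (mI a b x) i = a i * (∑ k : Fin 3, x k * (BB : ℤ) ^ (3 * (k : ℕ))) +
          b i * (-∑ k : Fin 3, x k * (BB : ℤ) ^ (3 * (k : ℕ))) := by
        simp only [rowY, mI, Fin.sum_univ_three]; ring
      rw [e1]
      push_cast
      exact Int.ModEq.add (Int.ModEq.mul_left _ h8) (Int.ModEq.mul_left _ h10)
    constructor
    · intro i
      rw [he]
      fin_cases i
      · exact hx 0
      · exact hx 1
      · exact hx 2
    · intro i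
      rw [he]
      fin_cases i
      · exact hy 0
      · exact hy 1
      · exact hy 2
    · rw [he]
      exact Int.ModEq.refl _

/-- a piece of `C` -/
theorem pk_pm {v : Vc} {x : Fin 3 → ℤ} {p : ℕ} (hv : VR v x p) (a b : Fin 3 → ℕ) (q : ℕ)
    (hq : ∀ i, a i + b i ≤ q) :
    Pk (pm v (a 0) (a 1) (a 2) (b 0) (b 1) (b 2)) (mI a b x) 0 (fun _ _ => 0) 0 (q * p) := by
  obtain ⟨e, h1, h2, h3⟩ := pm_rows hv a b q hq
  exact pk_part0 _ e _ _ _ h1 h2 h3

/-- a piece of `M` -/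
theorem pk_pmM {v : Vc} {x : Fin 3 → ℤ} {p : ℕ} (hv : VR v x p) (a b : Fin 3 → ℕ) (q : ℕ)
    (hq : ∀ i, a i + b i ≤ q) :
    Pk (toM (pm v (a 0) (a 1) (a 2) (b 0) (b 1) (b 2))) (fun _ _ => 0) 0 (mI a b x) 0 (q * p) := by
  obtain ⟨e, h1, h2, h3⟩ := pm_rows hv a b q hq
  have e1 : toM (pm v (a 0) (a 1) (a 2) (b 0) (b 1) (b 2)) =
      YY ^ 7 * pm v (a 0) (a 1) (a 2) (b 0) (b 1) (b 2) := by
    show Nat.shiftLeft _ (2560 * 7) = _
    rw [shl, YY_pow, mul_comm]
  rw [e1]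
  exact pk_part1 _ e _ _ _ h1 h2 h3

theorem single7 (k : ℕ) : k * YY ^ 6 = ∑ j ∈ range 7, (fun j => if j = 6 then k else 0) j * YY ^ j := by
  simp

theorem seven_k (k : ℕ) : Seven (fun j => if j = 6 then k else 0) 0 (fun _ _ => 0) (k : ℤ) := by
  constructor
  · intro i
    have h6 : 0 + (i : ℕ) ≠ 6 := by omega
    simp only [h6, if_false, rowX]
    simp
  · intro i
    have h6 : 0 + 3 + (i : ℕ) ≠ 6 := by omega
    simp only [h6, if_false, rowY]
    simp
  · simp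

theorem pk_kC (k : ℕ) (hk : k ≤ R9) : Pk (kC k) (fun _ _ => 0) k (fun _ _ => 0) 0 1 := by
  have e1 : kC k = k * YY ^ 6 := by
    show Nat.shiftLeft _ (2560 * 6) = _
    rw [shl, YY_pow]
  rw [e1]
  refine pk_part0 _ _ _ _ _ (single7 k) ?_ (seven_k k)
  intro j hj
  by_cases h : j = 6
  · simp only [h, if_true, one_mul]; exact hk
  · simp [h]

theorem pk_kM (k : ℕ) (hk : k ≤ R9) : Pk (kM k) (fun _ _ => 0) 0 (fun _ _ => 0) k 1 := by
  have e1 : kM k = YY ^ 7 * (k * YY ^ 6) := by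
    have h0 : kM k = Nat.shiftLeft k (2560 * 13) := rfl
    have h13 : (2 : ℕ) ^ (2560 * 13) = YY ^ 13 := (YY_pow 13).symm
    rw [h0, shl, h13, mul_left_comm, ← pow_add]
  rw [e1]
  refine pk_part1 _ _ _ _ _ (single7 k) ?_ (seven_k k)
  intro j hj
  by_cases h : j = 6
  · simp only [h, if_true, one_mul]; exact hk
  · simp [h]

/-- **from pieces to a fact** -/
theorem Pk.fact {E : RD} {N : ℕ} {C M : IM} {k u : ℤ} {p : ℕ} (h : Pk N C k M u p)
    (hp : p ≤ 2 ^ 60) (hC : ∀ i j, |C i j| ≤ 2 ^ 30) (hM : ∀ i j, |M i j| ≤ 2 ^ 30)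
    (hk : |k| ≤ 2 ^ 38) (hu : |u| ≤ 2 ^ 36) (iC : (k : ℝ) ≤ pr E.F C) (iM : E.om * u ≤ pr E.G M) :
    IsF E (one N) := by
  obtain ⟨e, h1, h2, h3, h4⟩ := h
  have e1 : one N = N + YY ^ 14 := by
    show N + p2 (2560 * 14) = _
    rw [p2_YY]
  rw [e1]
  refine ⟨C, k, M, u, ?_⟩
  constructor
  · refine ⟨fun i => if i < 14 then e i else 1, ?_, ?_, ?_, ?_, ?_⟩
    · have a1 : ∑ i ∈ range 14, (if i < 14 then e i else 1) * YY ^ i = ∑ i ∈ range 14, e i * YY ^ i := by
        refine Finset.sum_congr rfl fun i hi => ?_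
        rw [if_pos (Finset.mem_range.mp hi)]
      have a2 : (if 14 < 14 then e 14 else 1) * YY ^ 14 = YY ^ 14 := by
        rw [if_neg (lt_irrefl 14), one_mul]
      rw [Finset.sum_range_succ, a1, a2, h1]
    · intro i hi
      simp only [hi, if_true, one_mul]
      exact (h2 i hi).trans (Nat.mul_le_mul_right _ hp)
    · simp
    · refine seven_shift h3 ?_ |> fun h => h
      intro j hj
      rw [Nat.zero_add, if_pos (by omega)]
    · constructor
      · intro i
        have := h4.x i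
        simp only [show 7 + (i : ℕ) < 14 by omega, if_true]
        exact this
      · intro i
        have := h4.y i
        simp only [show 7 + 3 + (i : ℕ) < 14 by omega, if_true]
        exact this
      · have := h4.k
        simpa using this
  · intro i j
    simpa using hC i j
  · intro i j
    simpa using hM i j
  · simpa using hk
  · simpa using hu
  · exact iC
  · exact iM

end Pool.Agent.Helper80.TK
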