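import Mathlib
import Pool.Agent.Helper80.TK.Vert

/-!
# The bounds of the height and of the coefficients, in integers

Unit of the box `1 / 65536`, of the coefficients `1 / 4096`.
-/

set_option autoImplicit false

namespace Pool.Agent.Helper80.TK

open Finset

noncomputable def sel (b : Bool) (x y : Nat) : Nat := @Bool.rec (fun _ => Nat) y x b

theorem sel_eq (b : Bool) (x y : ℕ) : sel b x y = if b = true then x else y := by
  cases b <;> rfl

noncomputable def mx (a b : Nat) : Nat := sel (Nat.ble a b) b a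

noncomputable def mn (a b : Nat) : Nat := sel (Nat.ble a b) a b

theorem mx_eq (a b : ℕ) : mx a b = max a b := by
  unfold mx
  rw [sel_eq]
  split
  · rename_i h
    have := Nat.le_of_ble_eq_true h
    omega
  · rename_i h
    have : ¬ a ≤ b := fun h' => h (Nat.ble_eq_true_of_le h')
    omega

theorem mn_eq (a b : ℕ) : mn a b = min a b := by
  unfold mn
  rw [sel_eq]
  split
  · rename_i h
    have := Nat.le_of_ble_eq_true h
    omega
  · rename_i h
    have : ¬ a ≤ b := fun h' => h (Nat.ble_eq_true_of_le h')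
    omega

/-- lower bound of the height -/
noncomputable def hlF (b1 b2 b3 : Bool) (l1 l2 l3 l4 : Nat) : Nat :=
  mx l4 (mx (sel b1 l1 0) (mx (sel b2 l2 0) (sel b3 l3 0)))

/-- sum over the class `A` -/
noncomputable def sAF (b1 b2 b3 : Bool) (x1 x2 x3 : Nat) : Nat :=
  Nat.add (sel b1 x1 0) (Nat.add (sel b2 x2 0) (sel b3 x3 0))

/-- sum over the class `B` -/
noncomputable def sBF (b1 b2 b3 : Bool) (x1 x2 x3 : Nat) : Nat :=
  Nat.add (sel b1 0 x1) (Nat.add (sel b2 0 x2) (sel b3 0 x3))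

/-- upper bound of the height -/
noncomputable def hhF (sA sB h4 : Nat) : Nat :=
  mn h4 (mn (Nat.sub 65536 (Nat.div (Nat.mul 50 sB) 17))
    (@Nat.rec (fun _ => Nat) 65536
      (fun _ _ => Nat.add (Nat.div (Nat.mul 65536 sA) (Nat.add sA sB)) 1) sB))

/-- a contradiction in the box -/
noncomputable def deadF (hl hh sB : Nat) : Bool :=
  @Bool.rec (fun _ => Bool) (Nat.ble 1114113 (Nat.mul 50 sB)) true (Nat.ble (Nat.succ hh) hl)

/-- `1 / (1 - n / 256)`, upper bound -/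
noncomputable def up (n : Nat) : Nat := Nat.div (Nat.add 1048576 (Nat.sub 255 n)) (Nat.sub 256 n)

/-- `1 / (1 - n / 256)`, lower bound -/
noncomputable def low (n : Nat) : Nat := Nat.div 1048576 (Nat.sub 256 n)

/-- upper bound of the other coefficient -/
noncomputable def oth (L H : Nat) : Nat := Nat.sub L (Nat.div (Nat.mul (Nat.sub L 4096) 65536) H)

/-- lower bound of the other coefficient, `U` an upper bound of the own one -/
noncomputable def lwo (U hh : Nat) : Nat :=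
  sel (Nat.ble 65536 hh) 0
    (Nat.sub U (Nat.add (Nat.div (Nat.mul (Nat.sub U 4096) 65536) (Nat.sub 65536 hh)) 1))

/-- rounding up to `1 / 256` -/
noncomputable def nup (h : Nat) : Nat := Nat.div (Nat.add h 255) 256

/-- the parameters are in the box -/
structure InB (d : Fin 3 → ℝ) (h : ℝ) (l1 h1 l2 h2 l3 h3 l4 h4 : ℕ) : Prop where
  a1 : (l1 : ℝ) ≤ 65536 * d 0
  b1 : 65536 * d 0 ≤ h1
  a2 : (l2 : ℝ) ≤ 65536 * d 1
  b2 : 65536 * d 1 ≤ h2
  a3 : (l3 : ℝ) ≤ 65536 * d 2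
  b3 : 65536 * d 2 ≤ h3
  a4 : (l4 : ℝ) ≤ 65536 * h
  b4 : 65536 * h ≤ h4

theorem cast_sub_ge (a b : ℕ) : (a : ℝ) - b ≤ ((Nat.sub a b : ℕ) : ℝ) := by
  have h1 : a ≤ Nat.sub a b + b := by
    show a ≤ a - b + b
    omega
  have h2 : (a : ℝ) ≤ ((Nat.sub a b + b : ℕ) : ℝ) := by exact_mod_cast h1
  push_cast at h2
  linarith

theorem div_mul_le_cast (a b : ℕ) : ((Nat.div a b : ℕ) : ℝ) * b ≤ a := by
  have : Nat.div a b * b ≤ a := Nat.div_mul_le_self a b
  exact_mod_cast this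

theorem lt_div_succ_mul (a b : ℕ) (hb : 0 < b) : (a : ℝ) < (((Nat.div a b : ℕ) : ℝ) + 1) * b := by
  have h1 : a < (Nat.div a b + 1) * b := by
    have h2 : a % b < b := Nat.mod_lt a hb
    have h3 : b * Nat.div a b + a % b = a := Nat.div_add_mod a b
    calc a = b * Nat.div a b + a % b := h3.symm
      _ < b * Nat.div a b + b := by omega
      _ = (Nat.div a b + 1) * b := by ring
  exact_mod_cast h1

section

variable {W : ℝ} {F G : Matrix (Fin 3) (Fin 3) ℝ} {cls : Fin 3 → Bool} {d c s : Fin 3 → ℝ} {h : ℝ}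
  {lab : (Fin 3 → ℤ) → Fin 5} {l1 h1 l2 h2 l3 h3 l4 h4 : ℕ}

theorem sel_le_h (hk : KR W F G cls d c s h lab) (i : Fin 3) (l : ℕ) (hl : (l : ℝ) ≤ 65536 * d i) :
    ((sel (cls i) l 0 : ℕ) : ℝ) ≤ 65536 * h := by
  rw [sel_eq]
  split
  · rename_i hi
    have := hk.ks.dA i hi
    linarith
  · have := hk.ks.h0
    push_cast
    linarith

theorem hl_le (hk : KR W F G cls d c s h lab) (hb : InB d h l1 h1 l2 h2 l3 h3 l4 h4) :
    ((hlF (cls 0) (cls 1) (cls 2) l1 l2 l3 l4 : ℕ) : ℝ) ≤ 65536 * h := by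
  unfold hlF
  rw [mx_eq, mx_eq, mx_eq]
  push_cast
  exact max_le hb.a4 (max_le (sel_le_h hk 0 _ hb.a1) (max_le (sel_le_h hk 1 _ hb.a2)
    (sel_le_h hk 2 _ hb.a3)))

theorem sA_ge (x : Fin 3 → ℕ) (y : Fin 3 → ℝ) (hx : ∀ i, 65536 * y i ≤ x i) :
    65536 * ∑ i : Fin 3, (if cls i = true then y i else 0) ≤
      ((sAF (cls 0) (cls 1) (cls 2) (x 0) (x 1) (x 2) : ℕ) : ℝ) := by
  have e1 : sAF (cls 0) (cls 1) (cls 2) (x 0) (x 1) (x 2) = ∑ i : Fin 3, sel (cls i) (x i) 0 := by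
    rw [Fin.sum_univ_three, add_assoc]; rfl
  rw [e1, Finset.mul_sum]
  push_cast
  refine Finset.sum_le_sum fun i _ => ?_
  rw [sel_eq]
  split
  · exact hx i
  · simp

theorem sB_le (x : Fin 3 → ℕ) (y : Fin 3 → ℝ) (hx : ∀ i, (x i : ℝ) ≤ 65536 * y i) :
    ((sBF (cls 0) (cls 1) (cls 2) (x 0) (x 1) (x 2) : ℕ) : ℝ) ≤
      65536 * ∑ i : Fin 3, (if cls i = true then 0 else y i) := by
  have e1 : sBF (cls 0) (cls 1) (cls 2) (x 0) (x 1) (x 2) = ∑ i : Fin 3, sel (cls i) 0 (x i) := by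
    rw [Fin.sum_univ_three, add_assoc]; rfl
  rw [e1, Finset.mul_sum]
  push_cast
  refine Finset.sum_le_sum fun i _ => ?_
  rw [sel_eq]
  split
  · simp
  · exact hx i

theorem InB.lo (hb : InB d h l1 h1 l2 h2 l3 h3 l4 h4) (i : Fin 3) :
    ((![l1, l2, l3] i : ℕ) : ℝ) ≤ 65536 * d i := by
  fin_cases i
  · exact hb.a1
  · exact hb.a2
  · exact hb.a3

theorem InB.hi (hb : InB d h l1 h1 l2 h2 l3 h3 l4 h4) (i : Fin 3) :
    65536 * d i ≤ ((![h1, h2, h3] i : ℕ) : ℝ) := by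
  fin_cases i
  · exact hb.b1
  · exact hb.b2
  · exact hb.b3

theorem sB_bud (hk : KR W F G cls d c s h lab) (hb : InB d h l1 h1 l2 h2 l3 h3 l4 h4) :
    50 * ((sBF (cls 0) (cls 1) (cls 2) l1 l2 l3 : ℕ) : ℝ) ≤ 17 * (65536 * (1 - h)) := by
  have h1 := sB_le (cls := cls) ![l1, l2, l3] d hb.lo
  have h2 := hk.ks.dB
  have e1 : sBF (cls 0) (cls 1) (cls 2) (![l1, l2, l3] 0) (![l1, l2, l3] 1) (![l1, l2, l3] 2) =
    sBF (cls 0) (cls 1) (cls 2) l1 l2 l3 := rfl
  rw [e1] at h1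
  linarith

theorem le_hh (hk : KR W F G cls d c s h lab) (hb : InB d h l1 h1 l2 h2 l3 h3 l4 h4) :
    65536 * h ≤ ((hhF (sAF (cls 0) (cls 1) (cls 2) h1 h2 h3) (sBF (cls 0) (cls 1) (cls 2) l1 l2 l3)
      h4 : ℕ) : ℝ) := by
  have g1 := sB_bud hk hb
  obtain ⟨sB, hsB⟩ : ∃ sB, sB = sBF (cls 0) (cls 1) (cls 2) l1 l2 l3 := ⟨_, rfl⟩
  obtain ⟨sA, hsA⟩ : ∃ sA, sA = sAF (cls 0) (cls 1) (cls 2) h1 h2 h3 := ⟨_, rfl⟩
  have g2 : (sB : ℝ) ≤ 65536 * ∑ i : Fin 3, (if cls i = true then 0 else d i) := by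
    rw [hsB]
    exact sB_le (cls := cls) ![l1, l2, l3] d hb.lo
  have g3 : 65536 * ∑ i : Fin 3, (if cls i = true then d i else 0) ≤ (sA : ℝ) := by
    rw [hsA]
    exact sA_ge (cls := cls) ![h1, h2, h3] d hb.hi
  rw [← hsB] at g1
  rw [← hsB, ← hsA]
  unfold hhF
  rw [mn_eq, mn_eq]
  push_cast
  refine le_min hb.b4 (le_min ?_ ?_)
  · have h1 := cast_sub_ge 65536 (Nat.div (Nat.mul 50 sB) 17)
    have h2 := div_mul_le_cast (Nat.mul 50 sB) 17
    have h3 : ((Nat.mul 50 sB : ℕ) : ℝ) = 50 * sB := by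
      rw [Nat.mul_eq]; push_cast; ring
    rw [h3] at h2
    push_cast at h1 h2
    linarith
  · rcases Nat.eq_zero_or_pos sB with h0 | h0
    · rw [h0]
      show 65536 * h ≤ ((65536 : ℕ) : ℝ)
      push_cast
      linarith [hk.ks.h1]
    · obtain ⟨n, hn⟩ : ∃ n, sB = n + 1 := ⟨sB - 1, by omega⟩
      have e1 : @Nat.rec (fun _ => Nat) 65536
          (fun _ _ => Nat.add (Nat.div (Nat.mul 65536 sA) (Nat.add sA sB)) 1) sB =
          Nat.div (65536 * sA) (sA + sB) + 1 := by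
        rw [hn]
        rfl
      have h1 := lt_div_succ_mul (65536 * sA) (sA + sB) (by omega)
      rw [e1]
      push_cast at h1 ⊢
      have h2 := hk.ord
      have h5 := hk.ks.h0
      have h6 := hk.ks.h1
      have h3 : h * (sB : ℝ) ≤ (1 - h) * sA := by
        have h7 := mul_le_mul_of_nonneg_left g2 h5
        have h8 := mul_le_mul_of_nonneg_left g3 (by linarith : 0 ≤ 1 - h)
        nlinarith
      have h4 : 0 < (sA : ℝ) + sB := by
        have : (0 : ℝ) < sB := by exact_mod_cast h0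
        positivity
      have h7 : 65536 * h * ((sA : ℝ) + sB) ≤ 65536 * sA := by nlinarith
      by_contra h8
      push Not at h8
      have h9 := mul_lt_mul_of_pos_right h8 h4
      linarith

theorem dead_false (hk : KR W F G cls d c s h lab) (hb : InB d h l1 h1 l2 h2 l3 h3 l4 h4)
    (hd : deadF (hlF (cls 0) (cls 1) (cls 2) l1 l2 l3 l4)
      (hhF (sAF (cls 0) (cls 1) (cls 2) h1 h2 h3) (sBF (cls 0) (cls 1) (cls 2) l1 l2 l3) h4)
      (sBF (cls 0) (cls 1) (cls 2) l1 l2 l3) = true) : False := by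
  have g1 := hl_le hk hb
  have g2 := le_hh hk hb
  have g3 := sB_bud hk hb
  revert hd g1 g2 g3
  generalize hlF (cls 0) (cls 1) (cls 2) l1 l2 l3 l4 = hl
  generalize hhF (sAF (cls 0) (cls 1) (cls 2) h1 h2 h3) (sBF (cls 0) (cls 1) (cls 2) l1 l2 l3) h4 = hh
  generalize sBF (cls 0) (cls 1) (cls 2) l1 l2 l3 = sB
  intro hd g1 g2 g3
  unfold deadF at hd
  cases hc : Nat.ble (Nat.succ hh) hl with
  | true =>
    have h2 : hh < hl := Nat.le_of_ble_eq_true hc
    have h3 : (hh : ℝ) < hl := by exact_mod_cast h2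
    linarith
  | false =>
    rw [hc] at hd
    have h2 : 1114113 ≤ 50 * sB := Nat.le_of_ble_eq_true hd
    have h3 : (1114113 : ℝ) ≤ 50 * sB := by exact_mod_cast h2
    have h4 := hk.ks.h0
    linarith

theorem nup_ge (x : ℕ) : (x : ℝ) ≤ 256 * (nup x : ℕ) := by
  have h1 : x ≤ 256 * nup x := by
    show x ≤ 256 * ((x + 255) / 256)
    omega
  exact_mod_cast h1

theorem div256 (x : ℕ) : ((Nat.div x 256 : ℕ) : ℝ) * 256 ≤ x := by
  have := div_mul_le_cast x 256
  exact_mod_cast this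

/-- the own coefficient from above -/
theorem own_le {w t : ℝ} {n : ℕ} (hn : n ≤ 255) (hw : w * (1 - t) = 1) (_ : 0 ≤ w)
    (ht : 256 * t ≤ n) : 4096 * w ≤ (up n : ℕ) := by
  obtain ⟨m, hm⟩ : ∃ m, m = 256 - n := ⟨_, rfl⟩
  have hm1 : 1 ≤ m := by omega
  have h1 : 1048576 ≤ up n * m := by
    have e1 : up n = (1048576 + (m - 1)) / m := by
      unfold up
      show (1048576 + (255 - n)) / (256 - n) = _
      rw [← hm]
      congr 2
      omega
    have h2 := Nat.lt_div_mul_add (a := 1048576 + (m - 1)) (b := m) (by omega)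
    rw [e1]
    omega
  have h2 : (1048576 : ℝ) ≤ (up n : ℕ) * (m : ℕ) := by exact_mod_cast h1
  have h3 : ((m : ℕ) : ℝ) = 256 - n := by
    have : m + n = 256 := by omega
    have : ((m + n : ℕ) : ℝ) = 256 := by exact_mod_cast this
    push_cast at this
    linarith
  have h4 : (m : ℝ) ≤ 256 * (1 - t) := by rw [h3]; linarith
  have h5 : (0 : ℝ) < m := by exact_mod_cast hm1
  by_contra h6
  push Not at h6
  have h7 := mul_lt_mul_of_pos_right h6 h5
  have h8 := mul_le_mul_of_nonneg_left h4 (by linarith : 0 ≤ 4096 * w)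
  nlinarith

/-- the own coefficient from below -/
theorem own_ge {w t : ℝ} {n : ℕ} (hn : n ≤ 255) (hw : w * (1 - t) = 1) (hw0 : 0 ≤ w)
    (ht : (n : ℝ) ≤ 256 * t) : ((low n : ℕ) : ℝ) ≤ 4096 * w ∧ (4096 : ℝ) ≤ (low n : ℕ) ∧
      low n ≤ 1048576 := by
  obtain ⟨m, hm⟩ : ∃ m, m = 256 - n := ⟨_, rfl⟩
  have hm1 : 1 ≤ m := by omega
  have e1 : low n = 1048576 / m := by
    unfold low
    show 1048576 / (256 - n) = _
    rw [← hm]
  have h3 : ((m : ℕ) : ℝ) = 256 - n := by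
    have : m + n = 256 := by omega
    have : ((m + n : ℕ) : ℝ) = 256 := by exact_mod_cast this
    push_cast at this
    linarith
  have h4 : 256 * (1 - t) ≤ (m : ℝ) := by rw [h3]; linarith
  have h5 : (0 : ℝ) < m := by exact_mod_cast hm1
  refine ⟨?_, ?_, ?_⟩
  · have h1 := div_mul_le_cast 1048576 m
    have e2 : ((Nat.div 1048576 m : ℕ) : ℝ) = (low n : ℕ) := by rw [e1]; rfl
    rw [e2] at h1
    have h8 := mul_le_mul_of_nonneg_left h4 (by linarith : 0 ≤ 4096 * w)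
    by_contra h6
    push Not at h6
    have h7 := mul_lt_mul_of_pos_right h6 h5
    push_cast at h1
    nlinarith
  · have : 4096 ≤ low n := by
      rw [e1, Nat.le_div_iff_mul_le (by omega)]
      omega
    exact_mod_cast this
  · rw [e1]
    exact Nat.div_le_self _ _

theorem up_ge {n : ℕ} (hn : n ≤ 255) : (4096 : ℝ) ≤ (up n : ℕ) ∧ up n ≤ 1048576 := by
  obtain ⟨m, hm⟩ : ∃ m, m = 256 - n := ⟨_, rfl⟩
  have e1 : up n = (1048576 + (m - 1)) / m := by
    unfold up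
    show (1048576 + (255 - n)) / (256 - n) = _
    rw [← hm]
    congr 2
    omega
  constructor
  · have : 4096 ≤ up n := by
      rw [e1, Nat.le_div_iff_mul_le (by omega)]
      omega
    exact_mod_cast this
  · rw [e1]
    rw [Nat.div_le_iff_le_mul_add_pred (by omega)]
    have : 1048576 ≤ m * 1048576 := Nat.le_mul_of_pos_left _ (by omega)
    omega

/-- the other coefficient from above: `t = 1` for `x = s`, `θ = h` -/
theorem oth_ge {w x θ : ℝ} {L H : ℕ} (hl : (1 - θ) * w + θ * x = 1) (h0 : 0 ≤ θ) (h1 : θ ≤ 1)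
    (hx : x ≤ 1) (hL : (L : ℝ) ≤ 4096 * w) (hL' : (4096 : ℝ) ≤ L) (hH : 65536 * θ ≤ H) :
    4096 * x ≤ (oth L H : ℕ) := by
  have g1 := cast_sub_ge L (Nat.div (Nat.mul (Nat.sub L 4096) 65536) H)
  refine le_trans ?_ g1
  obtain ⟨q, hq⟩ : ∃ q, q = Nat.div (Nat.mul (Nat.sub L 4096) 65536) H := ⟨_, rfl⟩
  have g2 := div_mul_le_cast (Nat.mul (Nat.sub L 4096) 65536) H
  rw [← hq] at g2 ⊢
  have e1 : ((Nat.mul (Nat.sub L 4096) 65536 : ℕ) : ℝ) = (L - 4096) * 65536 := by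
    have hL2 : 4096 ≤ L := by exact_mod_cast hL'
    have : Nat.mul (Nat.sub L 4096) 65536 = (L - 4096) * 65536 := rfl
    rw [this]
    push_cast [Nat.cast_sub hL2]
    ring
  rw [e1] at g2
  have hq0 : (0 : ℝ) ≤ q := Nat.cast_nonneg _
  have g3 : θ * q ≤ L - 4096 := by
    have := mul_le_mul_of_nonneg_left hH hq0
    nlinarith
  rcases eq_or_lt_of_le h0 with h2 | h2
  · rw [← h2] at hl
    have h3 : w = 1 := by linarith
    rw [h3] at hL
    have h4 : (L : ℝ) = 4096 := by linarith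
    have h5 : q = 0 := by
      have hL2 : L = 4096 := by exact_mod_cast h4
      rw [hq, hL2]
      show (4096 - 4096) * 65536 / H = 0
      simp
    rw [h5, h4]
    push_cast
    linarith
  · by_contra h3
    push Not at h3
    have h4 := mul_lt_mul_of_pos_left h3 h2
    have h5 := mul_le_mul_of_nonneg_left hL (by linarith : 0 ≤ 1 - θ)
    nlinarith

theorem oth_le (L H : ℕ) : oth L H ≤ L := Nat.sub_le _ _

/-- the other coefficient from below -/
theorem lwo_le {w x θ : ℝ} {U hh : ℕ} (hl : (1 - θ) * x + θ * w = 1) (h0 : 0 ≤ θ) (hx : 0 ≤ x)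
    (hU : 4096 * w ≤ U) (hU' : (4096 : ℝ) ≤ U) (hH : 65536 * θ ≤ hh) :
    ((lwo U hh : ℕ) : ℝ) ≤ 4096 * x := by
  unfold lwo
  rw [sel_eq]
  split
  · push_cast
    linarith
  · rename_i hc
    have h2 : hh < 65536 := by
      by_contra h3
      exact hc (Nat.ble_eq_true_of_le (by omega))
    obtain ⟨m, hm⟩ : ∃ m, m = 65536 - hh := ⟨_, rfl⟩
    have hm1 : 0 < m := by omega
    have e0 : Nat.sub 65536 hh = m := hm.symm
    rw [e0]
    obtain ⟨q, hq⟩ : ∃ q, q = Nat.div (Nat.mul (Nat.sub U 4096) 65536) m := ⟨_, rfl⟩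
    have g2 := lt_div_succ_mul (Nat.mul (Nat.sub U 4096) 65536) m hm1
    rw [← hq] at g2 ⊢
    have hU2 : 4096 ≤ U := by exact_mod_cast hU'
    have e1 : ((Nat.mul (Nat.sub U 4096) 65536 : ℕ) : ℝ) = (U - 4096) * 65536 := by
      have : Nat.mul (Nat.sub U 4096) 65536 = (U - 4096) * 65536 := rfl
      rw [this]
      push_cast [Nat.cast_sub hU2]
      ring
    rw [e1] at g2
    have hmR : (m : ℝ) = 65536 - hh := by
      have : m + hh = 65536 := by omega
      have : ((m + hh : ℕ) : ℝ) = 65536 := by exact_mod_cast this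
      push_cast at this
      linarith
    have hm2 : (m : ℝ) ≤ 65536 * (1 - θ) := by rw [hmR]; linarith
    have hm3 : (0 : ℝ) < m := by exact_mod_cast hm1
    have hq0 : (0 : ℝ) ≤ (q : ℝ) + 1 := add_nonneg (Nat.cast_nonneg _) zero_le_one
    have h3 : 0 < 1 - θ :=
      (mul_pos_iff_of_pos_left (by norm_num : (0 : ℝ) < 65536)).1 (lt_of_lt_of_le hm3 hm2)
    have g3 : (U : ℝ) - 4096 < (q + 1) * (1 - θ) := by
      have := mul_le_mul_of_nonneg_left hm2 hq0
      nlinarith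
    have e2 : Nat.sub U (Nat.add q 1) = U - (q + 1) := rfl
    rw [e2]
    rcases Nat.lt_or_ge U (q + 1) with h4 | h4
    · rw [Nat.sub_eq_zero_of_le h4.le]
      push_cast
      linarith
    · rw [Nat.cast_sub h4]
      push_cast
      by_contra h5
      push Not at h5
      have h6 := mul_lt_mul_of_pos_left h5 h3
      have h7 := mul_le_mul_of_nonneg_left hU h0
      nlinarith

end

end Pool.Agent.Helper80.TK
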