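import Pool.Agent.Helper1.TK.Snd
import Pool.Agent.Gen.F5.X12CD13m1.All
import Pool.Agent.Gen.F5.X12CD13m2.All
import Pool.Agent.Gen.F5.X12CD13m3.All
import Pool.Agent.Gen.F5.X12CD13m4.All
import Pool.Agent.Gen.F5.X12CD13m5.All
import Pool.Agent.Gen.F5.X12CD13m6.All
import Pool.Agent.Gen.F5.X12DC13m1.All
import Pool.Agent.Gen.F5.X12DC13m2.All
import Pool.Agent.Gen.F5.X12DC13m3.All
import Pool.Agent.Gen.F5.X12DC13m4.All
import Pool.Agent.Gen.F5.X12DC13m5.All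
import Pool.Agent.Gen.F5.X12DC13m6.All
import Pool.Agent.Gen.F5.X12CD3Cm1.All
import Pool.Agent.Gen.F5.X12CD3Cm2.All
import Pool.Agent.Gen.F5.X12CD3Cm3.All
import Pool.Agent.Gen.F5.X12CD3Cm4.All
import Pool.Agent.Gen.F5.X12CD3Cm5.All
import Pool.Agent.Gen.F5.X12CD3Cm6.All
import Pool.Agent.Gen.F5.X12DC3Dm1.All
import Pool.Agent.Gen.F5.X12DC3Dm2.All
import Pool.Agent.Gen.F5.X12DC3Dm3.All
import Pool.Agent.Gen.F5.X12DC3Dm4.All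
import Pool.Agent.Gen.F5.X12DC3Dm5.All
import Pool.Agent.Gen.F5.X12DC3Dm6.All
import Pool.Agent.Gen.F5.X123C1Dm1.All
import Pool.Agent.Gen.F5.X123C1Dm2.All
import Pool.Agent.Gen.F5.X123C1Dm3.All
import Pool.Agent.Gen.F5.X123C1Dm4.All
import Pool.Agent.Gen.F5.X123C1Dm5.All
import Pool.Agent.Gen.F5.X123C1Dm6.All
import Pool.Agent.Gen.F5.X123D1Cm1.All
import Pool.Agent.Gen.F5.X123D1Cm2.All
import Pool.Agent.Gen.F5.X123D1Cm3.All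
import Pool.Agent.Gen.F5.X123D1Cm4.All
import Pool.Agent.Gen.F5.X123D1Cm5.All
import Pool.Agent.Gen.F5.X123D1Cm6.All
import Pool.Agent.Gen.F5.X123C2Dm1.All
import Pool.Agent.Gen.F5.X123C2Dm2.All
import Pool.Agent.Gen.F5.X123C2Dm3.All
import Pool.Agent.Gen.F5.X123C2Dm4.All
import Pool.Agent.Gen.F5.X123C2Dm5.All
import Pool.Agent.Gen.F5.X123C2Dm6.All
import Pool.Agent.Gen.F5.X123D2Cm1.All
import Pool.Agent.Gen.F5.X123D2Cm2.All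
import Pool.Agent.Gen.F5.X123D2Cm3.All
import Pool.Agent.Gen.F5.X123D2Cm4.All
import Pool.Agent.Gen.F5.X123D2Cm5.All
import Pool.Agent.Gen.F5.X123D2Cm6.All
import Pool.Agent.Gen.F5.X123CCDm1.All
import Pool.Agent.Gen.F5.X123CCDm2.All
import Pool.Agent.Gen.F5.X123CCDm3.All
import Pool.Agent.Gen.F5.X123CCDm4.All
import Pool.Agent.Gen.F5.X123CCDm5.All
import Pool.Agent.Gen.F5.X123CCDm6.All
import Pool.Agent.Gen.F5.X123DDCm1.All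
import Pool.Agent.Gen.F5.X123DDCm2.All
import Pool.Agent.Gen.F5.X123DDCm3.All
import Pool.Agent.Gen.F5.X123DDCm4.All
import Pool.Agent.Gen.F5.X123DDCm5.All
import Pool.Agent.Gen.F5.X123DDCm6.All
import Pool.Agent.Gen.F5.X1C2D13m1.All
import Pool.Agent.Gen.F5.X1C2D13m2.All
import Pool.Agent.Gen.F5.X1C2D13m3.All
import Pool.Agent.Gen.F5.X1C2D13m4.All
import Pool.Agent.Gen.F5.X1C2D13m5.All
import Pool.Agent.Gen.F5.X1C2D13m6.All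
import Pool.Agent.Gen.F5.X1C2D3Cm1.All
import Pool.Agent.Gen.F5.X1C2D3Cm2.All
import Pool.Agent.Gen.F5.X1C2D3Cm3.All
import Pool.Agent.Gen.F5.X1C2D3Cm4.All
import Pool.Agent.Gen.F5.X1C2D3Cm5.All
import Pool.Agent.Gen.F5.X1C2D3Cm6.All
import Pool.Agent.Gen.F5.X1D2C3Dm1.All
import Pool.Agent.Gen.F5.X1D2C3Dm2.All
import Pool.Agent.Gen.F5.X1D2C3Dm3.All
import Pool.Agent.Gen.F5.X1D2C3Dm4.All
import Pool.Agent.Gen.F5.X1D2C3Dm5.All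
import Pool.Agent.Gen.F5.X1D2C3Dm6.All

/-!
# The certificate

The thirteen words and the six partitions: every root is closed.
-/

set_option autoImplicit false


namespace Pool.Agent.Helper80.TK

open Pool.Agent.Helper72.F5 (Cl O R wc pn)
open Pool.Agent.Helper1.TK (wd all6 all78)

theorem word0 : ∀ m : Fin 6, Cl (O (m.val + 1)) (R (wc (wd 0))) pn :=
  all6 (P := fun m => Cl (O (m.val + 1)) (R (wc (wd 0))) pn)
    Pool.Agent.Gen.F5.X12CD13m1.top Pool.Agent.Gen.F5.X12CD13m2.top Pool.Agent.Gen.F5.X12CD13m3.top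
    Pool.Agent.Gen.F5.X12CD13m4.top Pool.Agent.Gen.F5.X12CD13m5.top Pool.Agent.Gen.F5.X12CD13m6.top

theorem word1 : ∀ m : Fin 6, Cl (O (m.val + 1)) (R (wc (wd 1))) pn :=
  all6 (P := fun m => Cl (O (m.val + 1)) (R (wc (wd 1))) pn)
    Pool.Agent.Gen.F5.X12DC13m1.top Pool.Agent.Gen.F5.X12DC13m2.top Pool.Agent.Gen.F5.X12DC13m3.top
    Pool.Agent.Gen.F5.X12DC13m4.top Pool.Agent.Gen.F5.X12DC13m5.top Pool.Agent.Gen.F5.X12DC13m6.top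

theorem word2 : ∀ m : Fin 6, Cl (O (m.val + 1)) (R (wc (wd 2))) pn :=
  all6 (P := fun m => Cl (O (m.val + 1)) (R (wc (wd 2))) pn)
    Pool.Agent.Gen.F5.X12CD3Cm1.top Pool.Agent.Gen.F5.X12CD3Cm2.top Pool.Agent.Gen.F5.X12CD3Cm3.top
    Pool.Agent.Gen.F5.X12CD3Cm4.top Pool.Agent.Gen.F5.X12CD3Cm5.top Pool.Agent.Gen.F5.X12CD3Cm6.top

theorem word3 : ∀ m : Fin 6, Cl (O (m.val + 1)) (R (wc (wd 3))) pn :=
  all6 (P := fun m => Cl (O (m.val + 1)) (R (wc (wd 3))) pn)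
    Pool.Agent.Gen.F5.X12DC3Dm1.top Pool.Agent.Gen.F5.X12DC3Dm2.top Pool.Agent.Gen.F5.X12DC3Dm3.top
    Pool.Agent.Gen.F5.X12DC3Dm4.top Pool.Agent.Gen.F5.X12DC3Dm5.top Pool.Agent.Gen.F5.X12DC3Dm6.top

theorem word4 : ∀ m : Fin 6, Cl (O (m.val + 1)) (R (wc (wd 4))) pn :=
  all6 (P := fun m => Cl (O (m.val + 1)) (R (wc (wd 4))) pn)
    Pool.Agent.Gen.F5.X123C1Dm1.top Pool.Agent.Gen.F5.X123C1Dm2.top Pool.Agent.Gen.F5.X123C1Dm3.top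
    Pool.Agent.Gen.F5.X123C1Dm4.top Pool.Agent.Gen.F5.X123C1Dm5.top Pool.Agent.Gen.F5.X123C1Dm6.top

theorem word5 : ∀ m : Fin 6, Cl (O (m.val + 1)) (R (wc (wd 5))) pn :=
  all6 (P := fun m => Cl (O (m.val + 1)) (R (wc (wd 5))) pn)
    Pool.Agent.Gen.F5.X123D1Cm1.top Pool.Agent.Gen.F5.X123D1Cm2.top Pool.Agent.Gen.F5.X123D1Cm3.top
    Pool.Agent.Gen.F5.X123D1Cm4.top Pool.Agent.Gen.F5.X123D1Cm5.top Pool.Agent.Gen.F5.X123D1Cm6.top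

theorem word6 : ∀ m : Fin 6, Cl (O (m.val + 1)) (R (wc (wd 6))) pn :=
  all6 (P := fun m => Cl (O (m.val + 1)) (R (wc (wd 6))) pn)
    Pool.Agent.Gen.F5.X123C2Dm1.top Pool.Agent.Gen.F5.X123C2Dm2.top Pool.Agent.Gen.F5.X123C2Dm3.top
    Pool.Agent.Gen.F5.X123C2Dm4.top Pool.Agent.Gen.F5.X123C2Dm5.top Pool.Agent.Gen.F5.X123C2Dm6.top

theorem word7 : ∀ m : Fin 6, Cl (O (m.val + 1)) (R (wc (wd 7))) pn :=
  all6 (P := fun m => Cl (O (m.val + 1)) (R (wc (wd 7))) pn)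
    Pool.Agent.Gen.F5.X123D2Cm1.top Pool.Agent.Gen.F5.X123D2Cm2.top Pool.Agent.Gen.F5.X123D2Cm3.top
    Pool.Agent.Gen.F5.X123D2Cm4.top Pool.Agent.Gen.F5.X123D2Cm5.top Pool.Agent.Gen.F5.X123D2Cm6.top

theorem word8 : ∀ m : Fin 6, Cl (O (m.val + 1)) (R (wc (wd 8))) pn :=
  all6 (P := fun m => Cl (O (m.val + 1)) (R (wc (wd 8))) pn)
    Pool.Agent.Gen.F5.X123CCDm1.top Pool.Agent.Gen.F5.X123CCDm2.top Pool.Agent.Gen.F5.X123CCDm3.top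
    Pool.Agent.Gen.F5.X123CCDm4.top Pool.Agent.Gen.F5.X123CCDm5.top Pool.Agent.Gen.F5.X123CCDm6.top

theorem word9 : ∀ m : Fin 6, Cl (O (m.val + 1)) (R (wc (wd 9))) pn :=
  all6 (P := fun m => Cl (O (m.val + 1)) (R (wc (wd 9))) pn)
    Pool.Agent.Gen.F5.X123DDCm1.top Pool.Agent.Gen.F5.X123DDCm2.top Pool.Agent.Gen.F5.X123DDCm3.top
    Pool.Agent.Gen.F5.X123DDCm4.top Pool.Agent.Gen.F5.X123DDCm5.top Pool.Agent.Gen.F5.X123DDCm6.top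

theorem word10 : ∀ m : Fin 6, Cl (O (m.val + 1)) (R (wc (wd 10))) pn :=
  all6 (P := fun m => Cl (O (m.val + 1)) (R (wc (wd 10))) pn)
    Pool.Agent.Gen.F5.X1C2D13m1.top Pool.Agent.Gen.F5.X1C2D13m2.top Pool.Agent.Gen.F5.X1C2D13m3.top
    Pool.Agent.Gen.F5.X1C2D13m4.top Pool.Agent.Gen.F5.X1C2D13m5.top Pool.Agent.Gen.F5.X1C2D13m6.top

theorem word11 : ∀ m : Fin 6, Cl (O (m.val + 1)) (R (wc (wd 11))) pn :=
  all6 (P := fun m => Cl (O (m.val + 1)) (R (wc (wd 11))) pn)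
    Pool.Agent.Gen.F5.X1C2D3Cm1.top Pool.Agent.Gen.F5.X1C2D3Cm2.top Pool.Agent.Gen.F5.X1C2D3Cm3.top
    Pool.Agent.Gen.F5.X1C2D3Cm4.top Pool.Agent.Gen.F5.X1C2D3Cm5.top Pool.Agent.Gen.F5.X1C2D3Cm6.top

theorem word12 : ∀ m : Fin 6, Cl (O (m.val + 1)) (R (wc (wd 12))) pn :=
  all6 (P := fun m => Cl (O (m.val + 1)) (R (wc (wd 12))) pn)
    Pool.Agent.Gen.F5.X1D2C3Dm1.top Pool.Agent.Gen.F5.X1D2C3Dm2.top Pool.Agent.Gen.F5.X1D2C3Dm3.top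
    Pool.Agent.Gen.F5.X1D2C3Dm4.top Pool.Agent.Gen.F5.X1D2C3Dm5.top Pool.Agent.Gen.F5.X1D2C3Dm6.top

/-- all roots are closed -/
theorem trees : ∀ (w : Fin 13) (m : Fin 6), Cl (O (m.val + 1)) (R (wc (wd w))) pn :=
  all78 word0 word1 word2 word3 word4 word5 word6 word7 word8 word9 word10 word11 word12

/-- **The certificate**: there is no state of the kappa form -/
theorem cert (l : Fin 6 → Fin 5) (hl : l ∈ Pool.Agent.Helper1.FIVE.classesB) :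
    ¬ ∃ F Z S p cls d c s h L, Pool.Agent.Helper20.PS.KF (2 + Real.sqrt 2) l F Z S p cls d c s h L :=
  Pool.Agent.Helper1.TK.cert_snd trees l hl

end Pool.Agent.Helper80.TK
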